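import Pool.Agent.N513.CE.Stm

/-!
# CE/RIG: rigidification of the finite approximations (for helper513)
-/

set_option autoImplicit false

namespace Pool.Agent.N383.CE

open Pool.Agent.N513.CE
open Pool.Agent.H21R2 (IsSofic)
open Pool.Agent.W661.RC (HasT)
open Pool.Agent.N303.KS (ct ct_le_add ct_le_sum ct_perm ct_nonneg ct_fiber ct_congr ct_mono)

noncomputable section

variable {Y : Type}

theorem aii (e : Equiv.Perm Y) (y : Y) : e (e⁻¹ y) = y := e.apply_symm_apply y

theorem iai (e : Equiv.Perm Y) (y : Y) : e⁻¹ (e y) = y := e.symm_apply_apply y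

open Classical in
/-- The restriction of a permutation to a set which it preserves, extended by the identity. -/
def rs (L : Set Y) (w : Equiv.Perm Y) : Equiv.Perm Y :=
  if h : ∀ i, w i ∈ L ↔ i ∈ L then
    Equiv.Perm.ofSubtype (p := fun i => i ∈ L) (w.subtypePerm h) else 1

theorem rs_mem {L : Set Y} {w : Equiv.Perm Y} (h : ∀ i, w i ∈ L ↔ i ∈ L) {i : Y} (hi : i ∈ L) :
    rs L w i = w i := by
  classical
  unfold rs
  rw [dif_pos h, Equiv.Perm.ofSubtype_apply_of_mem (p := fun i => i ∈ L) _ hi]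
  rfl

theorem rs_not {L : Set Y} {w : Equiv.Perm Y} {i : Y} (hi : i ∉ L) : rs L w i = i := by
  classical
  unfold rs
  split_ifs with h
  · exact Equiv.Perm.ofSubtype_apply_of_not_mem (p := fun i => i ∈ L) _ hi
  · rfl

/-- Two subsets of a finite set with the same number of elements. -/
theorem exists_perm [Finite Y] {S S' : Set Y} (h : Nat.card S = Nat.card S') :
    ∃ β : Equiv.Perm Y, ∀ y, y ∈ S ↔ β y ∈ S' := by
  classical
  have := Fintype.ofFinite Y
  obtain ⟨e⟩ := Finite.card_eq.1 h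
  let e' : {y // y ∈ S} ≃ {y // y ∈ S'} := e
  refine ⟨e'.extendSubtype, fun y => ⟨fun hy => e'.extendSubtype_mem y hy, fun hy => ?_⟩⟩
  by_contra hn
  exact e'.extendSubtype_not_mem y hn hy

/-- Representatives of the sets of each size. -/
theorem exists_rep {V : Type} (Lam : V → Set Y) :
    ∃ R : ℕ → Set Y, ∀ x, Nat.card (Lam x) = Nat.card (R (Nat.card (Lam x))) := by
  classical
  refine ⟨fun k => if h : ∃ x, Nat.card (Lam x) = k then Lam h.choose else ∅, fun x => ?_⟩
  have h : ∃ x', Nat.card (Lam x') = Nat.card (Lam x) := ⟨x, rfl⟩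
  simp only [dif_pos h]
  exact h.choose_spec.symm

theorem ct_prod {V W : Type} [Fintype V] [Fintype W] (p : V → Prop) :
    ct (fun a : V × W => p a.1) = Fintype.card W * ct p := by
  classical
  unfold ct
  have h : (Finset.univ.filter fun a : V × W => p a.1) =
      (Finset.univ.filter p) ×ˢ (Finset.univ : Finset W) := by
    ext a
    simp
  rw [h, Finset.card_product, Nat.cast_mul, Finset.card_univ, mul_comm]

theorem t_RIG : S_RIG := by
  classical
  intro hAT P _ N hN hP hT A B hA δ hδ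
  obtain ⟨B1, hB1⟩ : ∃ B1 : Finset P, B1 = B ∪ (B ×ˢ B).image fun p => p.1 * p.2 := ⟨_, rfl⟩
  have hBB : B ⊆ B1 := by
    rw [hB1]
    exact Finset.subset_union_left
  have hBm : ∀ g ∈ B, ∀ h ∈ B, g * h ∈ B1 := by
    intro g hg h hh
    rw [hB1]
    exact Finset.mem_union_right _ (Finset.mem_image.2 ⟨(g, h), Finset.mem_product.2 ⟨hg, hh⟩, rfl⟩)
  have hpos : (0 : ℝ) < 1 + B.card := by positivity
  obtain ⟨V, Y, fV, nV, fY, σ, φ, Lam, f, Bad, hct, hx⟩ :=
    hAT P N hN hP hT A B1 hA (δ / (1 + B.card)) (by positivity)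
  have := Fintype.ofFinite Y
  obtain ⟨R, hR⟩ := exists_rep Lam
  have hβ : ∀ x, ∃ β : Equiv.Perm Y, ∀ y, y ∈ Lam x ↔ β y ∈ R (Nat.card (Lam x)) := fun x =>
    exists_perm (hR x)
  choose β hβ using hβ
  obtain ⟨L, hL⟩ : ∃ L : V → Set Y, L = fun x => R (Nat.card (Lam x)) := ⟨_, rfl⟩
  have hβL : ∀ x y, y ∈ Lam x ↔ β x y ∈ L x := fun x y => by rw [hL]; exact hβ x y
  have hβL' : ∀ x i, (β x)⁻¹ i ∈ Lam x ↔ i ∈ L x := fun x i => by
    rw [hβL, aii]
  -- the transport
  obtain ⟨w, hw⟩ : ∃ w : P → V → Equiv.Perm Y, w = fun g x => β (σ g x) * φ g * (β x)⁻¹ :=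
    ⟨_, rfl⟩
  obtain ⟨T, hTd⟩ : ∃ T : P → V → Equiv.Perm Y, T = fun g x => rs (L x) (w g x) := ⟨_, rfl⟩
  have hLL : ∀ x, ¬ Bad x → ∀ g ∈ B1, L (σ g x) = L x := by
    intro x hb g hg
    have h1 := (hx x hb).2.2.2.1 g hg
    have h2 : Nat.card (Lam x) = Nat.card (Lam (σ g x)) :=
      Nat.card_congr ((φ g).subtypeEquiv h1)
    rw [hL]
    simp only
    rw [h2]
  have hwL : ∀ x, ¬ Bad x → ∀ g ∈ B1, ∀ i, w g x i ∈ L x ↔ i ∈ L x := by
    intro x hb g hg i
    have h1 := (hx x hb).2.2.2.1 g hg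
    have h2 : w g x i = β (σ g x) (φ g ((β x)⁻¹ i)) := by rw [hw]; rfl
    rw [h2]
    conv_lhs => rw [← hLL x hb g hg]
    rw [← hβL, ← h1, hβL']
  have hTm : ∀ x, ¬ Bad x → ∀ g ∈ B1, ∀ i ∈ L x, T g x i = w g x i := by
    intro x hb g hg i hi
    rw [hTd]
    exact rs_mem (hwL x hb g hg) hi
  have hTn : ∀ g x i, i ∉ L x → T g x i = i := by
    intro g x i hi
    rw [hTd]
    exact rs_not hi
  -- the new data
  let V' := V × Equiv.Perm Y
  let σ' : P → Equiv.Perm V' := fun g => Equiv.prodShear (σ g) fun x => Equiv.mulLeft (T g x)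
  have hσ' : ∀ g (x : V) (t : Equiv.Perm Y), σ' g (x, t) = (σ g x, T g x * t) := fun g x t => rfl
  let f' : V' → P → Equiv.Perm Y := fun x l => x.2⁻¹ * (β x.1 * f x.1 l * (β x.1)⁻¹) * x.2
  have hf' : ∀ (x : V) (t : Equiv.Perm Y) l, f' (x, t) l = t⁻¹ * (β x * f x l * (β x)⁻¹) * t :=
    fun x t l => rfl
  let Bad' : V' → Prop := fun x => Bad x.1 ∨ ∃ h ∈ B, Bad (σ h x.1)
  refine ⟨V', Equiv.Perm Y, inferInstance, inferInstance, inferInstance, inferInstance, σ', f', Bad',
    ?_, ?_⟩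
  · have h1 : ct Bad' = Fintype.card (Equiv.Perm Y) * ct fun x => Bad x ∨ ∃ h ∈ B, Bad (σ h x) :=
      ct_prod fun x => Bad x ∨ ∃ h ∈ B, Bad (σ h x)
    have h2 : (ct fun x => Bad x ∨ ∃ h ∈ B, Bad (σ h x)) ≤ (1 + B.card) * ct Bad := by
      have h3 := ct_le_add (p := fun x => Bad x ∨ ∃ h ∈ B, Bad (σ h x)) (q := Bad)
        (r := fun x => ∃ h ∈ B, Bad (σ h x)) fun a h => h
      have h4 := ct_le_sum B (p := fun x => ∃ h ∈ B, Bad (σ h x)) (fun h x => Bad (σ h x))
        fun a h => h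
      have h5 : ∑ h ∈ B, ct (fun x => Bad (σ h x)) = B.card * ct Bad := by
        rw [Finset.sum_congr rfl fun h _ => ct_perm Bad (σ h), Finset.sum_const, nsmul_eq_mul]
      rw [h5] at h4
      linarith
    have h6 : (1 + (B.card : ℝ)) * ct Bad ≤ δ * Fintype.card V := by
      calc (1 + (B.card : ℝ)) * ct Bad ≤ (1 + B.card) * (δ / (1 + B.card) * Fintype.card V) :=
            mul_le_mul_of_nonneg_left hct hpos.le
        _ = δ * Fintype.card V := by rw [← mul_assoc, mul_div_cancel₀ δ hpos.ne']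
    rw [h1, Fintype.card_prod, Nat.cast_mul]
    have h7 : (0 : ℝ) ≤ Fintype.card (Equiv.Perm Y) := Nat.cast_nonneg _
    have h8 := mul_le_mul_of_nonneg_left (h2.trans h6) h7
    linarith
  · rintro ⟨x, t⟩ hb
    have hb0 : ¬ Bad x := fun h => hb (Or.inl h)
    have hbh : ∀ h ∈ B, ¬ Bad (σ h x) := fun h hh hb' => hb (Or.inr ⟨h, hh, hb'⟩)
    obtain ⟨a1, a2, a3, a4, a5, a6⟩ := hx x hb0
    refine ⟨fun l hl l' hl' hll => ?_, fun l hl hl1 h1 => ?_, fun g hg l hl hgl => ?_,
      fun g hg h hh => ?_⟩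
    · rw [hf', hf', hf', a1 l hl l' hl' hll]
      group
    · rw [hf'] at h1
      apply a2 l hl hl1
      have h2 : β x * f x l * (β x)⁻¹ = t * 1 * t⁻¹ := by
        rw [← h1]
        group
      have h3 : f x l = (β x)⁻¹ * (t * 1 * t⁻¹) * β x := by
        rw [← h2]
        group
      rw [h3]
      group
    · have hg1 := hBB hg
      rw [hσ', hf', hf', a5 g hg1 l hl hgl]
      have hF : β (σ g x) * (φ g * f x l * (φ g)⁻¹) * (β (σ g x))⁻¹ =
          w g x * (β x * f x l * (β x)⁻¹) * (w g x)⁻¹ := by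
        rw [hw]
        group
      obtain ⟨F, hFd⟩ : ∃ F, F = β x * f x l * (β x)⁻¹ := ⟨_, rfl⟩
      have hFn : ∀ i, i ∉ L x → F i = i := by
        intro i hi
        have h1 : F i = β x (f x l ((β x)⁻¹ i)) := by rw [hFd]; rfl
        rw [h1, a3 l hl _ (fun h => hi ((hβL' x i).1 h)), aii]
      have hFm : ∀ i ∈ L x, F i ∈ L x := by
        intro i hi
        by_contra hn
        have h1 := hFn _ hn
        have h2 := F.injective h1
        rw [h2] at hn
        exact hn hi
      have key : w g x * F * (w g x)⁻¹ * T g x = T g x * F := by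
        ext1 i
        show w g x (F ((w g x)⁻¹ (T g x i))) = T g x (F i)
        by_cases hi : i ∈ L x
        · rw [hTm x hb0 g hg1 i hi, iai, hTm x hb0 g hg1 _ (hFm i hi)]
        · rw [hTn g x i hi, hFn i hi, hTn g x i hi]
          have h1 : (w g x)⁻¹ i ∉ L x := by
            intro h1
            rw [← hwL x hb0 g hg1, aii] at h1
            exact hi h1
          rw [hFn _ h1, aii]
      rw [hF, ← hFd]
      have e1 : (T g x * t)⁻¹ * (w g x * F * (w g x)⁻¹) * (T g x * t) =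
          t⁻¹ * ((T g x)⁻¹ * (w g x * F * (w g x)⁻¹ * T g x)) * t := by group
      rw [e1, key]
      group
    · have hg1 := hBB hg
      have hh1 := hBB hh
      have hgh := hBm g hg h hh
      have hs := (a6 g hg1 h hh1).1
      have hp := (a6 g hg1 h hh1).2
      rw [hσ', hσ', hσ', hs, ← mul_assoc]
      have hb1 := hbh h hh
      have key : T (g * h) x = T g (σ h x) * T h x := by
        ext1 i
        rw [Equiv.Perm.mul_apply]
        by_cases hi : i ∈ L x
        · have h1 := hTm x hb0 h hh1 i hi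
          have h2 : w h x i ∈ L (σ h x) := by
            rw [hLL x hb0 h hh1, hwL x hb0 h hh1]
            exact hi
          rw [h1, hTm x hb0 _ hgh i hi, hTm _ hb1 g hg1 _ h2]
          have h3 : w (g * h) x i = β (σ (g * h) x) (φ (g * h) ((β x)⁻¹ i)) := by rw [hw]; rfl
          have h4 : w g (σ h x) (w h x i) = β (σ g (σ h x)) (φ g ((β (σ h x))⁻¹
              (β (σ h x) (φ h ((β x)⁻¹ i))))) := by rw [hw]; rfl
          rw [h3, h4, iai, hs, hp _ ((hβL' x i).2 hi)]
        · have h2 : i ∉ L (σ h x) := by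
            rw [hLL x hb0 h hh1]
            exact hi
          rw [hTn _ x i hi, hTn _ x i hi, hTn _ _ i h2]
      rw [key]

end

end Pool.Agent.N383.CE
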